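import Pool.Agent.Helper96.KS.Parts

set_option autoImplicit false

open Finset

namespace KS.Base_helper36

open scoped Classical

open Inst

variable {K : ℕ} {I : Inst K}

lemma pick_spec {s : ℕ} {om : ℝ} {S : I.St} {u : I.H} (h : pick s om S = some u) :
    u ∈ S.L ∧ S.dep u < s ∧ om ≤ S.wt u ∧ ∀ a ∈ procs s om S, S.dep u ≤ S.dep a := by
  unfold pick at h
  split_ifs at h with hne
  have hs := Classical.choose_spec (Finset.exists_min_image (procs s om S) S.dep hne)
  simp only [Option.some.injEq] at h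
  rw [h] at hs
  have h1 := hs.1
  unfold procs at h1
  rw [mem_filter] at h1
  exact ⟨h1.1, h1.2.1, h1.2.2, hs.2⟩

lemma pick_none {s : ℕ} {om : ℝ} {S : I.St} (h : pick s om S = none) : procs s om S = ∅ := by
  unfold pick at h
  split_ifs at h with hne
  exact not_nonempty_iff_eq_empty.1 hne

lemma run_none {s : ℕ} {om : ℝ} {S : I.St} (η : I.H → I.H) (h : pick s om S = none) (k : ℕ) :
    run s om η k S = S := by
  induction k with
  | zero => rfl
  | succ k ih =>
    show run s om η k (stp s om η S) = S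
    have : stp s om η S = S := by
      unfold stp
      rw [h]
    rw [this, ih]

lemma stp_some {s : ℕ} {om : ℝ} {S : I.St} {u : I.H} (η : I.H → I.H)
    (h : pick s om S = some u) : stp s om η S = nxt S u (η u) := by
  unfold stp
  rw [h]

lemma run_some {s : ℕ} {om : ℝ} {S : I.St} {u : I.H} (η : I.H → I.H)
    (h : pick s om S = some u) (k : ℕ) :
    run s om η (k + 1) S = run s om η k (nxt S u (η u)) := by
  show run s om η k (stp s om η S) = _
  rw [stp_some η h]

lemma nxt_D (S : I.St) (u v : I.H) : (nxt S u v).D = insert u (insert v S.D) := by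
  unfold nxt
  split_ifs <;> rfl

lemma nxt_F (S : I.St) (u v : I.H) : (nxt S u v).F = S.F := by
  unfold nxt
  split_ifs <;> rfl

lemma nxt_fresh {S : I.St} {v : I.H} (u : I.H) (h : Fresh S v) : nxt S u v =
    { D := insert u (insert v S.D)
      L := (S.L.erase u) ∪ I.ch v
      F := S.F
      dep := fun h => if h ∈ I.ch v then S.dep u + 1 else S.dep h
      wt := fun h => if h ∈ I.ch v then S.wt u / I.dg v else S.wt h } := by
  unfold nxt
  rw [if_pos h]

lemma nxt_not {S : I.St} {v : I.H} (u : I.H) (h : ¬ Fresh S v) : nxt S u v =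
    { D := insert u (insert v S.D)
      L := (S.L.erase u).erase v
      F := S.F
      dep := S.dep
      wt := S.wt } := by
  unfold nxt
  rw [if_neg h]

lemma mem_ch {v h : I.H} : h ∈ I.ch v ↔ h.1 = v.1 ∧ h ≠ v := by
  unfold ch
  rw [mem_filter]
  exact ⟨fun h => h.2, fun h => ⟨mem_univ _, h⟩⟩

lemma card_vertex (w : Fin I.n) : (univ.filter fun h : I.H => h.1 = w).card = I.d w := by
  have : (univ.filter fun h : I.H => h.1 = w) =
      (univ : Finset (Fin (I.d w))).map ⟨fun i => (⟨w, i⟩ : I.H), by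
        intro i j hij
        simpa using hij⟩ := by
    ext h
    simp only [mem_filter, mem_univ, true_and, mem_map, Function.Embedding.coeFn_mk]
    constructor
    · rintro rfl
      exact ⟨h.2, rfl⟩
    · rintro ⟨i, rfl⟩
      rfl
  rw [this, card_map, card_univ, Fintype.card_fin]

lemma card_ch (v : I.H) : (I.ch v).card = I.dg v := by
  have h1 : I.ch v = (univ.filter fun h : I.H => h.1 = v.1).erase v := by
    ext h
    rw [mem_ch, mem_erase, mem_filter]
    constructor
    · rintro ⟨h1, h2⟩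
      exact ⟨h2, mem_univ _, h1⟩
    · rintro ⟨h1, h2⟩
      exact ⟨h2.2, h1⟩
  rw [h1, card_erase_of_mem (by simp), card_vertex]
  rfl

lemma dg_ge {Δ : ℕ} (hV : I.Valid Δ) (v : I.H) : 2 ≤ I.dg v := by
  have := hV.d3 v.1
  unfold Inst.dg
  omega

lemma dg_le {Δ : ℕ} (hV : I.Valid Δ) (v : I.H) : I.dg v + 1 ≤ Δ := by
  have := hV.dΔ v.1
  have := hV.d3 v.1
  unfold Inst.dg
  omega

lemma om_inv {η : I.H → I.H} (h : η ∈ I.Om) : ∀ x, η (η x) = x := by
  unfold Om at h
  exact (mem_filter.1 h).2.1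

lemma om_ne {η : I.H → I.H} (h : η ∈ I.Om) : ∀ x, η x ≠ x := by
  unfold Om at h
  exact (mem_filter.1 h).2.2.1

lemma mem_cls {η0 η : I.H → I.H} {D : Finset I.H} :
    η ∈ I.Cls η0 D ↔ η ∈ I.Om ∧ ∀ x ∈ D, η x = η0 x := by
  unfold Cls
  rw [mem_filter]

/-- sums over the active half-edges of the next state, fresh case -/
lemma sum_fresh {S : I.St} {u v : I.H} (hf : Fresh S v) (hu : u ∈ S.L)
    (φ : I.H → ℕ → ℝ → ℝ) :
    ∑ a ∈ (nxt S u v).L, φ a ((nxt S u v).dep a) ((nxt S u v).wt a) =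
      ∑ a ∈ S.L, φ a (S.dep a) (S.wt a) - φ u (S.dep u) (S.wt u) +
        ∑ a ∈ I.ch v, φ a (S.dep u + 1) (S.wt u / I.dg v) := by
  rw [nxt_fresh u hf]
  have hd : Disjoint (S.L.erase u) (I.ch v) := by
    rw [disjoint_left]
    intro a ha ha'
    exact (hf a (mem_ch.1 ha').1).2.1 (mem_of_mem_erase ha)
  show ∑ a ∈ (S.L.erase u) ∪ I.ch v, φ a (if a ∈ I.ch v then S.dep u + 1 else S.dep a)
    (if a ∈ I.ch v then S.wt u / I.dg v else S.wt a) = _
  rw [sum_union hd]
  have h1 : ∑ a ∈ S.L.erase u, φ a (if a ∈ I.ch v then S.dep u + 1 else S.dep a)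
      (if a ∈ I.ch v then S.wt u / I.dg v else S.wt a) =
      ∑ a ∈ S.L.erase u, φ a (S.dep a) (S.wt a) := by
    refine sum_congr rfl (fun a ha => ?_)
    have : a ∉ I.ch v := disjoint_left.1 hd ha
    rw [if_neg this, if_neg this]
  have h2 : ∑ a ∈ I.ch v, φ a (if a ∈ I.ch v then S.dep u + 1 else S.dep a)
      (if a ∈ I.ch v then S.wt u / I.dg v else S.wt a) =
      ∑ a ∈ I.ch v, φ a (S.dep u + 1) (S.wt u / I.dg v) := by
    refine sum_congr rfl (fun a ha => ?_)
    rw [if_pos ha, if_pos ha]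
  rw [h1, h2]
  have h3 := sum_erase_add S.L (fun a => φ a (S.dep a) (S.wt a)) hu
  linarith

/-- sums over the active half-edges of the next state, the other case -/
lemma sum_not {S : I.St} {u v : I.H} (hf : ¬ Fresh S v) (hu : u ∈ S.L)
    (φ : I.H → ℕ → ℝ → ℝ) (hφ : ∀ a ∈ S.L, 0 ≤ φ a (S.dep a) (S.wt a)) :
    ∑ a ∈ (nxt S u v).L, φ a ((nxt S u v).dep a) ((nxt S u v).wt a) ≤
      ∑ a ∈ S.L, φ a (S.dep a) (S.wt a) - φ u (S.dep u) (S.wt u) := by
  rw [nxt_not u hf]
  show ∑ a ∈ (S.L.erase u).erase v, φ a (S.dep a) (S.wt a) ≤ _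
  have h1 : ∑ a ∈ (S.L.erase u).erase v, φ a (S.dep a) (S.wt a) ≤
      ∑ a ∈ S.L.erase u, φ a (S.dep a) (S.wt a) :=
    sum_le_sum_of_subset_of_nonneg (erase_subset _ _)
      (fun a ha _ => hφ a (mem_of_mem_erase ha))
  have h3 := sum_erase_add S.L (fun a => φ a (S.dep a) (S.wt a)) hu
  linarith

end KS.Base_helper36
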