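import Pool.Agent.Helper36.KS.Base

set_option autoImplicit false

open Finset

namespace KS.CL_helper36

open scoped Classical

open Inst KS.Base_helper36

lemma nn {K : ℕ} {I : Inst K} {Δ s : ℕ} {om B : ℝ} {η0 : I.H → I.H} {S : I.St}
    (hInv : Inv Δ s om B η0 S) : ∀ a ∈ S.L, 0 ≤ S.wt a * ((s : ℝ) - S.dep a) := by
  intro a ha
  have h1 := hInv.wpos a ha
  have h2 : (S.dep a : ℝ) ≤ s := by exact_mod_cast hInv.deps a ha
  exact mul_nonneg h1.le (by linarith)

theorem main (hINV : KS.S_INV) : KS.S_CL := by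
  intro K Δ I hV s om B η0 η S k hom hη0
  induction k generalizing S η0 with
  | zero =>
    intro hInv hη
    obtain ⟨hηO, hηD⟩ := mem_cls.1 hη
    refine ⟨⟨?_, hInv.LD, hInv.LF, hInv.wpos, hInv.deps, hInv.sum1, hInv.cap⟩, Subset.rfl, rfl,
      fun η' _ => rfl, ?_⟩
    · intro x hx
      have hx' : x ∈ S.D := hx
      rw [hηD x hx']
      exact hInv.closed x hx'
    · intro h
      show procs s om S = ∅
      by_contra hne
      obtain ⟨u, hu⟩ := nonempty_iff_ne_empty.2 hne
      unfold procs at hu
      obtain ⟨huL, hds, hwu⟩ := mem_filter.1 hu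
      have h1 : S.wt u * ((s : ℝ) - S.dep u) ≤ ∑ a ∈ S.L, S.wt a * ((s : ℝ) - S.dep a) :=
        single_le_sum (nn hInv) huL
      have h2 : (1 : ℝ) ≤ (s : ℝ) - S.dep u := by
        have : ((S.dep u + 1 : ℕ) : ℝ) ≤ s := by exact_mod_cast hds
        push_cast at this
        linarith
      have h3 : om ≤ S.wt u * ((s : ℝ) - S.dep u) := by nlinarith
      have h4 : (∑ a ∈ S.L, S.wt a * ((s : ℝ) - S.dep a)) / om ≤ 0 := by simpa using h
      rw [div_le_iff₀ hom] at h4
      linarith
  | succ k ih =>
    intro hInv hη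
    obtain ⟨hηO, hηD⟩ := mem_cls.1 hη
    rcases hp : pick s om S with _ | u
    · rw [run_none η hp]
      refine ⟨⟨?_, hInv.LD, hInv.LF, hInv.wpos, hInv.deps, hInv.sum1, hInv.cap⟩, Subset.rfl, rfl,
        fun η' _ => run_none η' hp _, fun _ => pick_none hp⟩
      intro x hx
      rw [hηD x hx]
      exact hInv.closed x hx
    · obtain ⟨huL, hds, hwu, -⟩ := pick_spec hp
      have huD : u ∉ S.D := hInv.LD u huL
      have hvD : η u ∉ S.D := by
        intro h
        apply huD
        have h1 : η (η u) = u := om_inv hηO u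
        rw [← h1, hηD _ h]
        exact hInv.closed _ h
      obtain ⟨hInv', hcr, -⟩ := hINV K Δ I hV s om B η0 S hom hη0 hInv u (η u) η hp hvD
        (om_ne hηO u) hη rfl
      have hη' : η ∈ I.Cls η (nxt S u (η u)).D := mem_cls.2 ⟨hηO, fun _ _ => rfl⟩
      obtain ⟨g1, g2, g3, g4, g5⟩ := ih η (nxt S u (η u)) hηO hInv' hη'
      rw [run_some η hp]
      have hDsub : S.D ⊆ (nxt S u (η u)).D := by
        rw [nxt_D]
        exact (subset_insert _ _).trans (subset_insert _ _)
      refine ⟨g1, hDsub.trans g2, by rw [g3, nxt_F], ?_, ?_⟩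
      · intro η' hη'2
        rw [run_some η' hp]
        have hu' : η' u = η u := by
          apply (mem_cls.1 hη'2).2
          apply g2
          rw [nxt_D]
          exact mem_insert_self _ _
        rw [hu']
        exact g4 η' hη'2
      · intro h
        apply g5
        rw [div_le_iff₀ hom] at h ⊢
        push_cast at h
        linarith

end KS.CL_helper36
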