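import Pool.Agent.Helper36.KS.Base

set_option autoImplicit false

open Finset

namespace KS.INV_helper36

open scoped Classical

open Inst KS.Base_helper36

theorem main : KS.S_INV := by
  intro K Δ I hV s om B η0 S hom hη0 hInv u v η1 hp hvD hvu hη1 hηuv
  obtain ⟨huL, hds, hwu, -⟩ := pick_spec hp
  have hwu0 : 0 < S.wt u := lt_of_lt_of_le hom hwu
  have huD : u ∉ S.D := hInv.LD u huL
  have hdg2 : 2 ≤ I.dg v := dg_ge hV v
  have hdgΔ : I.dg v + 1 ≤ Δ := dg_le hV v
  have hdg0 : (0 : ℝ) < I.dg v := by
    have : (2 : ℝ) ≤ I.dg v := by exact_mod_cast hdg2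
    linarith
  have hdg1 : (1 : ℝ) ≤ I.dg v := by
    have : (2 : ℝ) ≤ I.dg v := by exact_mod_cast hdg2
    linarith
  have hchc : ((I.ch v).card : ℝ) = I.dg v := by rw [card_ch]
  obtain ⟨hη1O, hη1D⟩ := mem_cls.1 hη1
  have hclosed : ∀ x ∈ (nxt S u v).D, η1 x ∈ (nxt S u v).D := by
    rw [nxt_D]
    intro x hx
    rcases mem_insert.1 hx with rfl | hx
    · rw [hηuv]
      exact mem_insert_of_mem (mem_insert_self _ _)
    · rcases mem_insert.1 hx with rfl | hx
      · rw [← hηuv, om_inv hη1O]
        exact mem_insert_self _ _
      · rw [hη1D x hx]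
        exact mem_insert_of_mem (mem_insert_of_mem (hInv.closed x hx))
  have hdepu : (1 : ℝ) ≤ (s : ℝ) - S.dep u := by
    have : ((S.dep u + 1 : ℕ) : ℝ) ≤ s := by exact_mod_cast hds
    push_cast at this
    linarith
  have hnn : ∀ a ∈ S.L, 0 ≤ S.wt a * ((s : ℝ) - S.dep a) := by
    intro a ha
    have h1 := hInv.wpos a ha
    have h2 : (S.dep a : ℝ) ≤ s := by exact_mod_cast hInv.deps a ha
    exact mul_nonneg h1.le (by linarith)
  have hDcard : ((nxt S u v).D.card : ℝ) ≤ S.D.card + 2 := by
    rw [nxt_D]
    have h1 := card_insert_le u (insert v S.D)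
    have h2 := card_insert_le v S.D
    have : (insert u (insert v S.D)).card ≤ S.D.card + 2 := by omega
    exact_mod_cast this
  have hLcard1 : ((S.L.erase u).card : ℝ) = S.L.card - 1 := by
    rw [card_erase_of_mem huL]
    have : 1 ≤ S.L.card := card_pos.2 ⟨u, huL⟩
    push_cast [Nat.cast_sub this]
    ring
  have hΔr : (I.dg v : ℝ) + 1 ≤ Δ := by exact_mod_cast hdgΔ
  have hΔ3 : (3 : ℝ) ≤ Δ := by
    have : (2 : ℝ) ≤ I.dg v := by exact_mod_cast hdg2
    linarith
  -- the credit
  have hcredit : (∑ a ∈ (nxt S u v).L, (nxt S u v).wt a * ((s : ℝ) - (nxt S u v).dep a)) + S.wt u ≤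
      ∑ a ∈ S.L, S.wt a * ((s : ℝ) - S.dep a) := by
    by_cases hf : Fresh S v
    · have h1 := sum_fresh hf huL (fun _ d w => w * ((s : ℝ) - d))
      rw [h1, sum_const, nsmul_eq_mul, hchc]
      push_cast
      have h2 : (I.dg v : ℝ) * (S.wt u / I.dg v * ((s : ℝ) - (S.dep u + 1))) =
          S.wt u * ((s : ℝ) - (S.dep u + 1)) := by
        field_simp
      rw [h2]
      nlinarith
    · have h1 := sum_not hf huL (fun _ d w => w * ((s : ℝ) - d)) hnn
      have h2 : S.wt u * 1 ≤ S.wt u * ((s : ℝ) - S.dep u) :=
        mul_le_mul_of_nonneg_left hdepu hwu0.le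
      linarith
  refine ⟨?_, by linarith, ?_⟩
  · constructor
    · exact hclosed
    · -- LD
      intro a ha
      rw [nxt_D]
      by_cases hf : Fresh S v
      · rw [nxt_fresh u hf] at ha
        rcases mem_union.1 ha with ha | ha
        · have hau := ne_of_mem_erase ha
          have haL := mem_of_mem_erase ha
          intro h
          rcases mem_insert.1 h with h | h
          · exact hau h
          · rcases mem_insert.1 h with h | h
            · rw [h] at haL
              exact (hf v rfl).2.1 haL
            · exact hInv.LD a haL h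
        · obtain ⟨h1, h2⟩ := mem_ch.1 ha
          intro h
          rcases mem_insert.1 h with h | h
          · rw [h] at h1
            exact (hf u h1).2.1 huL
          · rcases mem_insert.1 h with h | h
            · exact h2 h
            · exact (hf a h1).1 h
      · rw [nxt_not u hf] at ha
        have hav := ne_of_mem_erase ha
        have ha' := mem_of_mem_erase ha
        have hau := ne_of_mem_erase ha'
        have haL := mem_of_mem_erase ha'
        intro h
        rcases mem_insert.1 h with h | h
        · exact hau h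
        · rcases mem_insert.1 h with h | h
          · exact hav h
          · exact hInv.LD a haL h
    · -- LF
      intro a ha
      rw [nxt_F]
      by_cases hf : Fresh S v
      · rw [nxt_fresh u hf] at ha
        rcases mem_union.1 ha with ha | ha
        · exact hInv.LF a (mem_of_mem_erase ha)
        · obtain ⟨h1, h2⟩ := mem_ch.1 ha
          exact (hf a h1).2.2
      · rw [nxt_not u hf] at ha
        exact hInv.LF a (mem_of_mem_erase (mem_of_mem_erase ha))
    · -- wpos
      intro a ha
      by_cases hf : Fresh S v
      · rw [nxt_fresh u hf] at ha ⊢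
        show 0 < (if a ∈ I.ch v then S.wt u / I.dg v else S.wt a)
        split_ifs with hc
        · positivity
        · rcases mem_union.1 ha with ha | ha
          · exact hInv.wpos a (mem_of_mem_erase ha)
          · exact absurd ha hc
      · rw [nxt_not u hf] at ha ⊢
        exact hInv.wpos a (mem_of_mem_erase (mem_of_mem_erase ha))
    · -- deps
      intro a ha
      by_cases hf : Fresh S v
      · rw [nxt_fresh u hf] at ha ⊢
        show (if a ∈ I.ch v then S.dep u + 1 else S.dep a) ≤ s
        split_ifs with hc
        · omega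
        · rcases mem_union.1 ha with ha | ha
          · exact hInv.deps a (mem_of_mem_erase ha)
          · exact absurd ha hc
      · rw [nxt_not u hf] at ha ⊢
        exact hInv.deps a (mem_of_mem_erase (mem_of_mem_erase ha))
    · -- sum1
      by_cases hf : Fresh S v
      · have h1 := sum_fresh hf huL (fun _ _ w => w)
        rw [h1, sum_const, nsmul_eq_mul, hchc]
        have h2 : (I.dg v : ℝ) * (S.wt u / I.dg v) = S.wt u := by field_simp
        rw [h2]
        have := hInv.sum1
        linarith
      · have h1 := sum_not hf huL (fun _ _ w => w) (fun a ha => (hInv.wpos a ha).le)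
        have := hInv.sum1
        linarith
    · -- cap
      have hcap := hInv.cap
      have hL : ((nxt S u v).D.card : ℝ) + (nxt S u v).L.card ≤ S.D.card + S.L.card + 2 * Δ := by
        by_cases hf : Fresh S v
        · have h1 : ((nxt S u v).L.card : ℝ) ≤ S.L.card - 1 + I.dg v := by
            rw [nxt_fresh u hf]
            show (((S.L.erase u) ∪ I.ch v).card : ℝ) ≤ _
            have : (((S.L.erase u) ∪ I.ch v).card : ℝ) ≤ (S.L.erase u).card + (I.ch v).card := by
              exact_mod_cast card_union_le _ _
            rw [hLcard1, hchc] at this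
            exact this
          linarith
        · have h1 : ((nxt S u v).L.card : ℝ) ≤ S.L.card - 1 := by
            rw [nxt_not u hf]
            show ((((S.L.erase u).erase v).card : ℕ) : ℝ) ≤ _
            rw [← hLcard1]
            exact_mod_cast card_le_card (erase_subset _ _)
          linarith
      rw [nxt_F]
      have h3 : 2 * Δ * (∑ a ∈ (nxt S u v).L, (nxt S u v).wt a * ((s : ℝ) - (nxt S u v).dep a)) / om
          + 2 * Δ ≤ 2 * Δ * (∑ a ∈ S.L, S.wt a * ((s : ℝ) - S.dep a)) / om := by
        rw [div_add' _ _ _ hom.ne', div_le_div_iff_of_pos_right hom]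
        have h4 : (0 : ℝ) ≤ 2 * Δ := by linarith
        have h5 := mul_le_mul_of_nonneg_left (show (∑ a ∈ (nxt S u v).L, (nxt S u v).wt a *
          ((s : ℝ) - (nxt S u v).dep a)) + om ≤ ∑ a ∈ S.L, S.wt a * ((s : ℝ) - S.dep a) by
            linarith) h4
        linarith
      linarith
  · intro M hM hMS a ha
    by_cases hf : Fresh S v
    · rw [nxt_fresh u hf] at ha ⊢
      show M * (if a ∈ I.ch v then S.wt u / I.dg v else S.wt a) ≤ 1
      split_ifs with hc
      · have h1 : S.wt u / I.dg v ≤ S.wt u := div_le_self hwu0.le hdg1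
        exact (mul_le_mul_of_nonneg_left h1 hM).trans (hMS u huL)
      · rcases mem_union.1 ha with ha | ha
        · exact hMS a (mem_of_mem_erase ha)
        · exact absurd ha hc
    · rw [nxt_not u hf] at ha ⊢
      exact hMS a (mem_of_mem_erase (mem_of_mem_erase ha))

end KS.INV_helper36
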