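import Pool.Agent.Helper36.KS.TL2

set_option autoImplicit false

open Finset

namespace KS.TL1_helper36

open scoped Classical

open Inst KS.Base_helper36 KS.TL2_helper36

variable {K : ℕ} {I : Inst K}

/-- the invariant of the first phase -/
structure Ph (Δ r : ℕ) (b : I.H → ℝ) (bF : ℝ) (S : I.St) : Prop where
  dep : ∀ a ∈ S.L, S.dep a ≤ r
  lo : ∀ a ∈ S.L, (1 / (Δ : ℝ)) ^ S.dep a ≤ S.wt a
  hi : ∀ a ∈ S.L, S.wt a ≤ (1 / 2) ^ S.dep a
  sum : ∑ a ∈ S.L, S.wt a = 1
  bs : ∑ a ∈ S.F \ S.D, b a = bF

theorem main (hTL2 : KS.S_TL2) (hTN : KS.S_TN) (hINV : KS.S_INV) (hST : KS.S_ST) :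
    KS.S_TL1 := by
  intro K Δ I hV r s om B lam z0 ep G b η0 D F x hom hlam hG0 hG1 hb hη0 hD hxD hxF hBc hB hrs
    hor hlr hF hFs hz0 k
  obtain ⟨-, -, tn3, tn4, -, tn6⟩ := hTN K Δ I hV
  have hvx := hV.d3 x.1
  have hvx' := hV.dΔ x.1
  have hΔ3 : 3 ≤ Δ := hvx.trans hvx'
  have hΔr : (3 : ℝ) ≤ Δ := by exact_mod_cast hΔ3
  have hB0 : 0 ≤ B := by
    have h1 : (0 : ℝ) ≤ D.card := Nat.cast_nonneg _
    have h2 : (0 : ℝ) ≤ F.card := Nat.cast_nonneg _
    have h3 : 0 ≤ 2 * Δ * (s : ℝ) / om := by positivity
    linarith
  have he := err_nonneg (I := I) Δ hom hB0
  set bF : ℝ := ∑ a ∈ F \ D, b a with hbF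
  set Q : ℝ := Real.exp (-lam * ep + 4 * lam ^ 2 * (1 / 2) ^ r + lam * I.err Δ om B * s) with hQ
  have hQ0 : 0 < Q := Real.exp_pos _
  by_cases hep : ep < 0
  · -- trivial case
    have h1 : 1 ≤ Q := by
      rw [hQ, Real.one_le_exp_iff]
      have h2 : 0 ≤ -lam * ep := by nlinarith
      have h3 : 0 ≤ 4 * lam ^ 2 * (1 / 2 : ℝ) ^ r := by positivity
      have h4 : 0 ≤ lam * I.err Δ om B * s := by positivity
      linarith
    calc _ ≤ ((I.Cls η0 D).card : ℝ) := by exact_mod_cast card_le_card (filter_subset _ _)
      _ = ((I.Cls η0 D).card : ℝ) * 1 := by ring
      _ ≤ _ := mul_le_mul_of_nonneg_left h1 (Nat.cast_nonneg _)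
  push Not at hep
  -- in the first phase the potential is large
  have hZ : ∀ S : I.St, Ph Δ r b bF S → z0 + bF ≤ Z s G b S := by
    intro S hP
    unfold Inst.Z
    rw [hP.bs]
    have h1 : ∑ a ∈ S.L, S.wt a * z0 ≤
        ∑ a ∈ S.L, S.wt a * I.Tn (s - S.dep a) G (I.c a) (-Real.log (S.wt a)) := by
      refine sum_le_sum (fun a ha => ?_)
      have hlo := hP.lo a ha
      have hhi := hP.hi a ha
      have hd := hP.dep a ha
      have hpos : (0 : ℝ) < (1 / (Δ : ℝ)) ^ S.dep a := by positivity
      have hw0 : 0 < S.wt a := lt_of_lt_of_le hpos hlo
      refine mul_le_mul_of_nonneg_left ?_ hw0.le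
      have e1 : s - S.dep a = (r - S.dep a) + (s - r) := by omega
      rw [e1, tn4]
      have h2 := tn6 (r - S.dep a) (fun _ _ => z0) (I.Tn (s - r) G) (I.c a) (-Real.log (S.wt a))
        (by
          intro l y hy1 hy2
          apply hz0
          · have h3 : Real.log (S.wt a) ≤ S.dep a * Real.log (1 / 2) := by
              rw [← Real.log_pow]
              exact Real.log_le_log hw0 hhi
            rw [one_div, Real.log_inv] at h3
            push_cast [Nat.cast_sub hd] at hy1
            linarith
          · have h3 : S.dep a * Real.log (1 / (Δ : ℝ)) ≤ Real.log (S.wt a) := by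
              rw [← Real.log_pow]
              exact Real.log_le_log hpos hlo
            rw [one_div, Real.log_inv] at h3
            push_cast [Nat.cast_sub hd] at hy2
            linarith)
      rw [tn3] at h2
      exact h2
    rw [← sum_mul, hP.sum, one_mul] at h1
    linarith
  -- the empty case
  have hempty : ∀ (S : I.St) (A : Finset (I.H → I.H)) (R : (I.H → I.H) → Prop), Ph Δ r b bF S →
      ((A.filter fun η => R η ∧ Z s G b S < z0 + bF - ep).card : ℝ) ≤ A.card * Q := by
    intro S A R hP
    have h1 : (A.filter fun η => R η ∧ Z s G b S < z0 + bF - ep) = ∅ := by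
      rw [filter_eq_empty_iff]
      rintro η - ⟨-, h⟩
      have := hZ S hP
      linarith
    rw [h1, card_empty, Nat.cast_zero]
    exact mul_nonneg (Nat.cast_nonneg _) hQ0.le
  -- the induction
  have key : ∀ (k : ℕ) (η0 : I.H → I.H) (S : I.St), η0 ∈ I.Om → Inv Δ s om B η0 S →
      Ph Δ r b bF S → (∀ a ∈ S.F, 4 * lam * b a ≤ 1) → ∑ a ∈ S.F, b a ≤ 1 →
      (((I.Cls η0 S.D).filter fun η => NC r s om η k S ∧
        Z s G b (run s om η k S) < z0 + bF - ep).card : ℝ) ≤ (I.Cls η0 S.D).card * Q := by
    intro k
    induction k with
    | zero =>
      intro η0 S hη0 hInv hP hF hFs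
      exact hempty S (I.Cls η0 S.D) (fun η => NC r s om η 0 S) hP
    | succ k ih =>
      intro η0 S hη0 hInv hP hF hFs
      rcases hp : pick s om S with _ | u
      · have h1 := hempty S (I.Cls η0 S.D) (fun η => NC r s om η (k + 1) S) hP
        refine le_trans (le_of_eq ?_) h1
        congr 1
        congr 1
        refine filter_congr (fun η _ => ?_)
        rw [run_none η hp]
      · obtain ⟨huL, hds, hwu, hmin⟩ := pick_spec hp
        have huD : u ∉ S.D := hInv.LD u huL
        by_cases hur : S.dep u < r
        · -- the first phase goes on
          have h1 := hST K Δ I hV η0 hη0 S.D hInv.closed u huD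
            (fun η => if NC r s om η (k + 1) S ∧
              Z s G b (run s om η (k + 1) S) < z0 + bF - ep then 1 else 0)
            (fun _ => Q) (by
              intro v hvD hvu η1 hη1 hη1u
              obtain ⟨hInv', -, -⟩ := hINV K Δ I hV s om B η0 S hom hη0 hInv u v η1 hp hvD hvu
                hη1 hη1u
              have hη1O := (mem_cls.1 hη1).1
              have hηu : ∀ η ∈ I.Cls η1 (insert u (insert v S.D)), η u = v := by
                intro η hη
                rw [(mem_cls.1 hη).2 u (mem_insert_self _ _), hη1u]
              by_cases hf : Fresh S v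
              · have hdg2 := dg_ge hV v
                have hdgΔ := dg_le hV v
                have hdg2r : (2 : ℝ) ≤ I.dg v := by exact_mod_cast hdg2
                have hdgΔr : (I.dg v : ℝ) ≤ Δ := by
                  have : ((I.dg v + 1 : ℕ) : ℝ) ≤ Δ := by exact_mod_cast hdgΔ
                  push_cast at this
                  linarith
                have hdg0 : (0 : ℝ) < I.dg v := by linarith
                have hP' : Ph Δ r b bF (nxt S u v) := by
                  constructor
                  · intro a ha
                    rw [nxt_fresh u hf] at ha ⊢
                    show (if a ∈ I.ch v then S.dep u + 1 else S.dep a) ≤ r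
                    split_ifs with hc
                    · omega
                    · rcases mem_union.1 ha with ha | ha
                      · exact hP.dep a (mem_of_mem_erase ha)
                      · exact absurd ha hc
                  · intro a ha
                    rw [nxt_fresh u hf] at ha ⊢
                    show (1 / (Δ : ℝ)) ^ (if a ∈ I.ch v then S.dep u + 1 else S.dep a) ≤
                      (if a ∈ I.ch v then S.wt u / I.dg v else S.wt a)
                    split_ifs with hc
                    · rw [pow_succ, mul_one_div]
                      have h2 := hP.lo u huL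
                      have h3 : (0 : ℝ) < (1 / (Δ : ℝ)) ^ S.dep u := by positivity
                      calc (1 / (Δ : ℝ)) ^ S.dep u / Δ ≤ (1 / (Δ : ℝ)) ^ S.dep u / I.dg v :=
                            div_le_div_of_nonneg_left h3.le hdg0 hdgΔr
                        _ ≤ S.wt u / I.dg v := div_le_div_of_nonneg_right h2 hdg0.le
                    · rcases mem_union.1 ha with ha | ha
                      · exact hP.lo a (mem_of_mem_erase ha)
                      · exact absurd ha hc
                  · intro a ha
                    rw [nxt_fresh u hf] at ha ⊢
                    show (if a ∈ I.ch v then S.wt u / I.dg v else S.wt a) ≤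
                      (1 / 2 : ℝ) ^ (if a ∈ I.ch v then S.dep u + 1 else S.dep a)
                    split_ifs with hc
                    · rw [pow_succ, mul_one_div]
                      have h2 := hP.hi u huL
                      have h3 : (0 : ℝ) < (1 / 2 : ℝ) ^ S.dep u := by positivity
                      calc S.wt u / I.dg v ≤ (1 / 2 : ℝ) ^ S.dep u / I.dg v :=
                            div_le_div_of_nonneg_right h2 hdg0.le
                        _ ≤ (1 / 2 : ℝ) ^ S.dep u / 2 :=
                            div_le_div_of_nonneg_left h3.le (by norm_num) hdg2r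
                    · rcases mem_union.1 ha with ha | ha
                      · exact hP.hi a (mem_of_mem_erase ha)
                      · exact absurd ha hc
                  · have h2 := sum_fresh hf huL (fun _ _ w => w)
                    rw [h2, sum_const, nsmul_eq_mul, card_ch, hP.sum]
                    field_simp
                    ring
                  · rw [nxt_F, nxt_D, ← hP.bs]
                    congr 1
                    ext a
                    rw [mem_sdiff, mem_sdiff]
                    constructor
                    · rintro ⟨h2, h3⟩
                      exact ⟨h2, fun h4 => h3 (mem_insert_of_mem (mem_insert_of_mem h4))⟩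
                    · rintro ⟨h2, h3⟩
                      refine ⟨h2, fun h4 => ?_⟩
                      rcases mem_insert.1 h4 with rfl | h4
                      · exact hInv.LF _ huL h2
                      · rcases mem_insert.1 h4 with rfl | h4
                        · exact (hf _ rfl).2.2 h2
                        · exact h3 h4
                have hih := ih η1 (nxt S u v) hη1O hInv' hP' (by rw [nxt_F]; exact hF)
                  (by rw [nxt_F]; exact hFs)
                rw [nxt_D] at hih
                refine le_trans (le_of_eq ?_) hih
                rw [card_filter]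
                push_cast
                refine sum_congr rfl (fun η hη => ?_)
                have hu' := hηu η hη
                have e1 : run s om η (k + 1) S = run s om η k (nxt S u v) := by
                  rw [run_some η hp, hu']
                have e2 : NC r s om η (k + 1) S ↔ NC r s om η k (nxt S u v) := by
                  show ((∀ u', pick s om S = some u' → S.dep u' < r → Fresh S (η u')) ∧
                    NC r s om η k (stp s om η S)) ↔ _
                  rw [stp_some η hp, hu']
                  constructor
                  · exact fun h => h.2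
                  · intro h
                    refine ⟨?_, h⟩
                    intro u' hpu' _
                    rw [hp] at hpu'
                    have : u = u' := by simpa using hpu'
                    rw [← this, hu']
                    exact hf
                simp only [e1, e2]
              · refine le_trans (le_of_eq (sum_eq_zero (fun η hη => ?_))) (by positivity)
                rw [if_neg]
                rintro ⟨hnc, -⟩
                have hnc' : (∀ u', pick s om S = some u' → S.dep u' < r → Fresh S (η u')) ∧
                    NC r s om η k (stp s om η S) := hnc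
                have h2 := hnc'.1 u hp hur
                rw [hηu η hη] at h2
                exact hf h2)
          have h2 : (((I.Cls η0 S.D).filter fun η => NC r s om η (k + 1) S ∧
              Z s G b (run s om η (k + 1) S) < z0 + bF - ep).card : ℝ) =
              ∑ η ∈ I.Cls η0 S.D, (if NC r s om η (k + 1) S ∧
              Z s G b (run s om η (k + 1) S) < z0 + bF - ep then (1 : ℝ) else 0) := by
            rw [card_filter]
            push_cast
            rfl
          rw [h2]
          refine h1.trans (le_of_eq ?_)
          rw [← sum_mul, sum_fib hη0 hInv.closed huD]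
        · -- the second phase
          push Not at hur
          have hdr : ∀ a ∈ S.L, S.dep a = r := by
            intro a ha
            refine le_antisymm (hP.dep a ha) ?_
            by_contra hlt
            push Not at hlt
            have hap : a ∈ procs s om S := by
              unfold procs
              rw [mem_filter]
              refine ⟨ha, by omega, ?_⟩
              refine le_trans hor (le_trans ?_ (hP.lo a ha))
              exact pow_le_pow_of_le_one (by positivity)
                (by rw [div_le_one (by positivity)]; linarith) hlt.le
            have := hmin a hap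
            omega
          have h1 := hTL2 K Δ I hV s om B lam G b η0 S hom hlam hG0 hG1 hb hη0 hInv hB
            (by
              intro a ha
              have h2 := hP.hi a ha
              rw [hdr a ha] at h2
              refine le_trans (mul_le_mul_of_nonneg_left h2 (by positivity)) hlr) hF hFs (k + 1)
          have h2 : (((I.Cls η0 S.D).filter fun η => NC r s om η (k + 1) S ∧
              Z s G b (run s om η (k + 1) S) < z0 + bF - ep).card : ℝ) *
              Real.exp (-lam * (z0 + bF - ep)) ≤
              ∑ η ∈ I.Cls η0 S.D, Real.exp (-lam * Z s G b (run s om η (k + 1) S)) := by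
            rw [← nsmul_eq_mul, ← sum_const]
            calc _ ≤ ∑ η ∈ (I.Cls η0 S.D).filter fun η => NC r s om η (k + 1) S ∧
                    Z s G b (run s om η (k + 1) S) < z0 + bF - ep,
                    Real.exp (-lam * Z s G b (run s om η (k + 1) S)) := by
                  refine sum_le_sum (fun η hη => Real.exp_le_exp.2 ?_)
                  have h3 := (mem_filter.1 hη).2.2
                  nlinarith
              _ ≤ _ := sum_le_sum_of_subset_of_nonneg (filter_subset _ _)
                  (fun _ _ _ => (Real.exp_pos _).le)
          have h3 := h2.trans h1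
          have h4 : ∑ a ∈ S.L, S.wt a ^ 2 ≤ (1 / 2) ^ r := by
            calc ∑ a ∈ S.L, S.wt a ^ 2 ≤ ∑ a ∈ S.L, (1 / 2 : ℝ) ^ r * S.wt a := by
                  refine sum_le_sum (fun a ha => ?_)
                  have h5 := hP.hi a ha
                  rw [hdr a ha] at h5
                  have h6 := hInv.wpos a ha
                  rw [sq]
                  exact mul_le_mul_of_nonneg_right h5 h6.le
              _ = (1 / 2) ^ r := by rw [← mul_sum, hP.sum, mul_one]
          have h5 : ∑ a ∈ S.L, S.wt a * ((s : ℝ) - S.dep a) ≤ s := by
            calc ∑ a ∈ S.L, S.wt a * ((s : ℝ) - S.dep a) ≤ ∑ a ∈ S.L, S.wt a * (s : ℝ) := by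
                  refine sum_le_sum (fun a ha => ?_)
                  have h6 := hInv.wpos a ha
                  have h7 : (0 : ℝ) ≤ S.dep a := Nat.cast_nonneg _
                  exact mul_le_mul_of_nonneg_left (by linarith) h6.le
              _ = s := by rw [← sum_mul, hP.sum, one_mul]
          have h6 := hZ S hP
          have h7 : ((I.Cls η0 S.D).card : ℝ) * Real.exp (-lam * Z s G b S +
              4 * lam ^ 2 * ∑ a ∈ S.L, S.wt a ^ 2 +
              lam * I.err Δ om B * ∑ a ∈ S.L, S.wt a * ((s : ℝ) - S.dep a)) ≤
              (I.Cls η0 S.D).card * (Q * Real.exp (-lam * (z0 + bF - ep))) := by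
            refine mul_le_mul_of_nonneg_left ?_ (Nat.cast_nonneg _)
            rw [hQ, ← Real.exp_add]
            refine Real.exp_le_exp.2 ?_
            have h8 : 4 * lam ^ 2 * ∑ a ∈ S.L, S.wt a ^ 2 ≤ 4 * lam ^ 2 * (1 / 2) ^ r :=
              mul_le_mul_of_nonneg_left h4 (by positivity)
            have h9 : lam * I.err Δ om B * ∑ a ∈ S.L, S.wt a * ((s : ℝ) - S.dep a) ≤
                lam * I.err Δ om B * s := mul_le_mul_of_nonneg_left h5 (by positivity)
            nlinarith
          have h10 := h3.trans h7
          rw [← mul_assoc] at h10
          exact le_of_mul_le_mul_right h10 (Real.exp_pos _)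
  -- the initial state
  refine key k η0 (init D F x) hη0 ?_ ?_ hF hFs
  · constructor
    · exact hD
    · intro a ha
      have : a = x := by simpa [init] using ha
      rw [this]
      exact hxD
    · intro a ha
      have : a = x := by simpa [init] using ha
      rw [this]
      exact hxF
    · intro a _
      show (0 : ℝ) < 1
      norm_num
    · intro a _
      exact Nat.zero_le s
    · show ∑ a ∈ ({x} : Finset I.H), (1 : ℝ) ≤ 1
      simp
    · show ((D.card : ℝ) + ({x} : Finset I.H).card + F.card
        + 2 * Δ * (∑ a ∈ ({x} : Finset I.H), (1 : ℝ) * ((s : ℝ) - ((0 : ℕ) : ℝ))) / om ≤ B)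
      rw [card_singleton, sum_singleton]
      push_cast
      rw [one_mul, sub_zero]
      exact hBc
  · constructor
    · intro a _
      exact Nat.zero_le r
    · intro a _
      show (1 / (Δ : ℝ)) ^ 0 ≤ 1
      simp
    · intro a _
      show (1 : ℝ) ≤ (1 / 2) ^ 0
      simp
    · show ∑ a ∈ ({x} : Finset I.H), (1 : ℝ) = 1
      simp
    · rfl

end KS.TL1_helper36
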