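import Pool.Agent.Helper36.KS.Base

set_option autoImplicit false

open Finset

namespace KS.TL2_helper36

open scoped Classical

open Inst KS.Base_helper36

variable {K : ℕ} {I : Inst K}

lemma err_nonneg (Δ : ℕ) {om B : ℝ} (hom : 0 < om) (hB : 0 ≤ B) : 0 ≤ I.err Δ om B := by
  unfold Inst.err
  positivity

lemma nn {Δ s : ℕ} {om B : ℝ} {η0 : I.H → I.H} {S : I.St}
    (hInv : Inv Δ s om B η0 S) : ∀ a ∈ S.L, 0 ≤ S.wt a * ((s : ℝ) - S.dep a) := by
  intro a ha
  have h1 := hInv.wpos a ha
  have h2 : (S.dep a : ℝ) ≤ s := by exact_mod_cast hInv.deps a ha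
  exact mul_nonneg h1.le (by linarith)

lemma D_le {Δ s : ℕ} {om B : ℝ} {η0 : I.H → I.H} {S : I.St} (hom : 0 < om)
    (hInv : Inv Δ s om B η0 S) : (S.D.card : ℝ) ≤ B := by
  have h1 := hInv.cap
  have h2 : 0 ≤ 2 * Δ * (∑ a ∈ S.L, S.wt a * ((s : ℝ) - S.dep a)) / om := by
    have := sum_nonneg (nn hInv)
    positivity
  have h3 : (0 : ℝ) ≤ S.L.card := Nat.cast_nonneg _
  have h4 : (0 : ℝ) ≤ S.F.card := Nat.cast_nonneg _
  linarith

/-- the partition of a class by the value at `u` -/
lemma sum_fib {η0 : I.H → I.H} (_hη0 : η0 ∈ I.Om) {D : Finset I.H} (hD : ∀ x ∈ D, η0 x ∈ D)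
    {u : I.H} (hu : u ∉ D) :
    ∑ v ∈ univ.filter (fun v => v ∉ D ∧ v ≠ u), (((I.Cls η0 D).filter fun η => η u = v).card : ℝ)
      = (I.Cls η0 D).card := by
  set A := I.Cls η0 D with hA
  set T : Finset I.H := univ.filter (fun v => v ∉ D ∧ v ≠ u) with hT
  have hmaps : ∀ η ∈ A, η u ∈ T := by
    intro η hη
    obtain ⟨hηO, hηD⟩ := mem_cls.1 hη
    rw [hT, mem_filter]
    refine ⟨mem_univ _, ?_, om_ne hηO u⟩
    intro h
    apply hu
    have h2 : η (η u) = u := om_inv hηO u
    rw [← h2, hηD _ h]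
    exact hD _ h
  have h1 : ∀ v : I.H, ((A.filter fun η => η u = v).card : ℝ) =
      ∑ η ∈ A, if η u = v then (1 : ℝ) else 0 := by
    intro v
    rw [card_filter]
    push_cast
    rfl
  simp_rw [h1]
  rw [sum_comm]
  have h2 : ∀ η ∈ A, (∑ v ∈ T, if η u = v then (1 : ℝ) else 0) = 1 := by
    intro η hη
    rw [sum_ite_eq, if_pos (hmaps η hη)]
  rw [sum_congr rfl h2, sum_const, nsmul_eq_mul, mul_one]

theorem main (hOS : KS.S_OS) (hINV : KS.S_INV) (hPL : KS.S_PL) (hST : KS.S_ST) : KS.S_TL2 := by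
  intro K Δ I hV s om B lam G b η0 S hom hlam hG0 hG1 hb hη0 hInv hB hL hF hFs k
  induction k generalizing S η0 with
  | zero =>
    have hB0 : 0 ≤ B := le_trans (Nat.cast_nonneg _) (D_le hom hInv)
    have he := err_nonneg (I := I) Δ hom hB0
    have h1 := sum_nonneg (nn hInv)
    have h2 : 0 ≤ ∑ a ∈ S.L, S.wt a ^ 2 := sum_nonneg (fun _ _ => sq_nonneg _)
    show ∑ η ∈ I.Cls η0 S.D, Real.exp (-lam * Z s G b S) ≤ _
    rw [sum_const, nsmul_eq_mul]
    refine mul_le_mul_of_nonneg_left (Real.exp_le_exp.2 ?_) (Nat.cast_nonneg _)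
    have h3 : 0 ≤ lam * I.err Δ om B * ∑ a ∈ S.L, S.wt a * ((s : ℝ) - S.dep a) := by positivity
    have h4 : 0 ≤ 4 * lam ^ 2 * ∑ a ∈ S.L, S.wt a ^ 2 := by positivity
    linarith
  | succ k ih =>
    rcases hp : pick s om S with _ | u
    · have h1 := ih η0 S hη0 hInv hL hF hFs
      refine le_trans (le_of_eq (sum_congr rfl (fun η _ => ?_))) h1
      rw [run_none η hp, run_none η hp]
    · obtain ⟨huL, hds, hwu, -⟩ := pick_spec hp
      have huD : u ∉ S.D := hInv.LD u huL
      set c : ℝ := ((I.Cls η0 S.D).card : ℝ) with hc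
      have hη0m : η0 ∈ I.Cls η0 S.D := mem_cls.2 ⟨hη0, fun _ _ => rfl⟩
      have hc0 : 0 < c := by
        have : 0 < (I.Cls η0 S.D).card := card_pos.2 ⟨η0, hη0m⟩
        rw [hc]
        exact Nat.cast_pos.2 this
      -- the partition
      have h1 := hST K Δ I hV η0 hη0 S.D hInv.closed u huD
        (fun η => Real.exp (-lam * Z s G b (run s om η k (nxt S u (η u)))))
        (fun v => Real.exp (-lam * Z s G b (nxt S u v) +
          4 * lam ^ 2 * ∑ a ∈ (nxt S u v).L, (nxt S u v).wt a ^ 2
          + lam * I.err Δ om B * ∑ a ∈ (nxt S u v).L, (nxt S u v).wt a *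
            ((s : ℝ) - (nxt S u v).dep a))) (by
          intro v hvD hvu η1 hη1 hη1u
          obtain ⟨hInv', -, hM⟩ := hINV K Δ I hV s om B η0 S hom hη0 hInv u v η1 hp hvD hvu hη1
            hη1u
          have hη1O := (mem_cls.1 hη1).1
          have hL' : ∀ a ∈ (nxt S u v).L, 4 * lam * (nxt S u v).wt a ≤ 1 :=
            hM (4 * lam) (by positivity) hL
          have hih := ih η1 (nxt S u v) hη1O hInv' hL' (by rw [nxt_F]; exact hF)
            (by rw [nxt_F]; exact hFs)
          rw [nxt_D] at hih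
          refine le_trans (le_of_eq (sum_congr rfl (fun η hη => ?_))) hih
          have hηu : η u = v := by
            rw [(mem_cls.1 hη).2 u (mem_insert_self _ _), hη1u]
          show Real.exp (-lam * Z s G b (run s om η k (nxt S u (η u)))) = _
          rw [hηu])
      -- the one step inequality
      have hDB := D_le hom hInv
      have hN0 : (0 : ℝ) < I.N := by exact_mod_cast hV.npos
      have hcard : 4 * K * (S.D.card + 2) ≤ I.N := by
        have : (4 * K * (S.D.card + 2) : ℝ) ≤ I.N := by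
          refine le_trans ?_ hB
          have : (0 : ℝ) ≤ 4 * K := by positivity
          nlinarith
        exact_mod_cast this
      have h2 := hOS K Δ I hV s om B lam G b η0 S u
        (fun v => (((I.Cls η0 S.D).filter fun η => η u = v).card : ℝ) / c) hom hlam hG0 hG1 hb
        hInv hB hL hF hFs hp (fun v => by positivity)
        (by rw [← sum_div, sum_fib hη0 hInv.closed huD]; exact div_self hc0.ne')
        (by
          intro v hvD hvu
          have h3 := hPL K Δ I hV η0 hη0 S.D hInv.closed hcard u huD v hvD hvu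
          have h4 : (((I.Cls η0 S.D).filter fun η => η u = v).card : ℝ) / c - I.q (I.c u) v =
              ((((I.Cls η0 S.D).filter fun η => η u = v).card : ℝ) - I.q (I.c u) v * c) / c := by
            field_simp
          rw [h4, abs_div, abs_of_pos hc0, div_le_iff₀ hc0]
          exact h3)
      calc ∑ η ∈ I.Cls η0 S.D, Real.exp (-lam * Z s G b (run s om η (k + 1) S))
          = ∑ η ∈ I.Cls η0 S.D,
              Real.exp (-lam * Z s G b (run s om η k (nxt S u (η u)))) := by
            refine sum_congr rfl (fun η _ => ?_)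
            rw [run_some η hp]
        _ ≤ _ := h1
        _ = c * ∑ v ∈ univ.filter (fun v => v ∉ S.D ∧ v ≠ u),
              (((I.Cls η0 S.D).filter fun η => η u = v).card : ℝ) / c *
              Real.exp (-lam * Z s G b (nxt S u v) +
                4 * lam ^ 2 * ∑ a ∈ (nxt S u v).L, (nxt S u v).wt a ^ 2
                + lam * I.err Δ om B * ∑ a ∈ (nxt S u v).L, (nxt S u v).wt a *
                  ((s : ℝ) - (nxt S u v).dep a)) := by
            rw [mul_sum]
            refine sum_congr rfl (fun v _ => ?_)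
            field_simp
        _ ≤ _ := mul_le_mul_of_nonneg_left h2 hc0.le

end KS.TL2_helper36
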